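import Pool.Agent.Y440.K.Stm

/-! Statement on the seven codes of a structure on seven points. -/

set_option autoImplicit false

open Pool.Agent.Y440.A (Odd4)

namespace Pool.Agent.Y440.K

/-- statement Y7: field `i` of `Y7` is the code of the other six points and of the link of point `i` -/
def S_y7 : Prop := ∀ (V : Type) (E : V → V → V → V → ℕ), Odd4 E → ∀ a b c d e f g : V,
  f20 (Y7 (B.c7 E a b c d e f g)) 0 = B.c7 E b c d e f g a ∧
  f20 (Y7 (B.c7 E a b c d e f g)) 20 = B.c7 E a c d e f g b ∧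
  f20 (Y7 (B.c7 E a b c d e f g)) 40 = B.c7 E a b d e f g c ∧
  f20 (Y7 (B.c7 E a b c d e f g)) 60 = B.c7 E a b c e f g d ∧
  f20 (Y7 (B.c7 E a b c d e f g)) 80 = B.c7 E a b c d f g e ∧
  f20 (Y7 (B.c7 E a b c d e f g)) 100 = B.c7 E a b c d e g f ∧
  f20 (Y7 (B.c7 E a b c d e f g)) 120 = B.c7 E a b c d e f g

end Pool.Agent.Y440.K
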