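import Pool.Agent.Y440.K.Ker

/-! A second form of the check of one word. -/

set_option autoImplicit false
set_option maxRecDepth 100000

namespace Pool.Agent.Y440.K

noncomputable section

/-- record of the code `x = c + 1024 f` -/
def rf (x : ℕ) : ℕ := B.st gR
  (Nat.mod (Nat.shiftRight (B.st ctb (Nat.mod x 1024)) (Nat.mul 14 (Nat.div x 1024))) 16384)

/-- first half of the record at `k` of the structure `n` on seven points -/
def RA (n k : ℕ) : ℕ := Nat.land (rf (f20 (Y7 n) k)) mR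

/-- second half -/
def RB (n k : ℕ) : ℕ := Nat.shiftRight (rf (f20 (Y7 n) k)) 4872

/-- value of the kernel -/
def pr (n i m j : ℕ) : ℕ := Nat.mod (Nat.shiftRight (Nat.mul (RA n i) (RB m j)) 4816) 72057594037927936

/-- sum over the 28 pairs -/
def S28 (c0 c1 c2 c3 c4 c5 c6 c7 : ℕ) : ℕ := (Nat.add (pr c1 0 c0 0) (Nat.add (pr c2 0 c0 20) (Nat.add (pr c3 0 c0 40) (Nat.add (pr c4 0 c0 60) (Nat.add (pr c5 0 c0 80) (Nat.add (pr c6 0 c0 100) (Nat.add (pr c7 0 c0 120) (Nat.add (pr c2 20 c1 20) (Nat.add (pr c3 20 c1 40) (Nat.add (pr c4 20 c1 60) (Nat.add (pr c5 20 c1 80) (Nat.add (pr c6 20 c1 100) (Nat.add (pr c7 20 c1 120) (Nat.add (pr c3 40 c2 40) (Nat.add (pr c4 40 c2 60) (Nat.add (pr c5 40 c2 80) (Nat.add (pr c6 40 c2 100) (Nat.add (pr c7 40 c2 120) (Nat.add (pr c4 60 c3 60) (Nat.add (pr c5 60 c3 80) (Nat.add (pr c6 60 c3 100) (Nat.add (pr c7 60 c3 120) (Nat.add (pr c5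 80 c4 80) (Nat.add (pr c6 80 c4 100) (Nat.add (pr c7 80 c4 120) (Nat.add (pr c6 100 c5 100) (Nat.add (pr c7 100 c5 120) (pr c7 120 c6 120))))))))))))))))))))))))))))

def m0 (X c7 c6 c5 c4 c3 c2 c1 c0 : ℕ) : Bool := Nat.ble (Nat.add (S28 c0 c1 c2 c3 c4 c5 c6 c7) 34016745000000) (Nat.add 34106834340352704 (Nat.mul 1555051200000 (Nat.mod X 256)))
def m1 (X c7 c6 c5 c4 c3 c2 c1 : ℕ) : Bool := B.st (m0 X c7 c6 c5 c4 c3 c2 c1) (f20 X 72)
def m2 (X c7 c6 c5 c4 c3 c2 : ℕ) : Bool := B.st (m1 X c7 c6 c5 c4 c3 c2) (f20 X 92)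
def m3 (X c7 c6 c5 c4 c3 : ℕ) : Bool := B.st (m2 X c7 c6 c5 c4 c3) (f20 X 112)
def m4 (X c7 c6 c5 c4 : ℕ) : Bool := B.st (m3 X c7 c6 c5 c4) (f20 X 132)
def m5 (X c7 c6 c5 : ℕ) : Bool := B.st (m4 X c7 c6 c5) (f20 X 152)
def m6 (X c7 c6 : ℕ) : Bool := B.st (m5 X c7 c6) (f20 X 172)
def m7 (X c7 : ℕ) : Bool := B.st (m6 X c7) (f20 X 192)
/-- the inequality for the word `X` -/
def leaf2 (X : ℕ) : Bool := B.st (m7 X) (f20 X 212)

end

end Pool.Agent.Y440.K
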