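import Pool.Agent.Y440.K.Ker
import Pool.Agent.Y440.A.Stm

/-! Statements on the kernel: values, symmetry, positivity. -/

set_option autoImplicit false
set_option maxRecDepth 100000

open Finset
open Pool.Agent.Y440.A (Odd4 cd fl cd7 L8f D8f t7f C0 C1 C2 C3 C4 F0 F1 F2 F3 F4)

namespace Pool.Agent.Y440.K

noncomputable section

/-- number of squares of type `t` -/
def dm (t : ℕ) : ℕ := dmT.getD t 0

/-- offset of the entries of type `t` -/
def ofs (t : ℕ) : ℕ := ofT.getD t 0

/-- lists of the weights of the squares, by type -/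
def dwT : List (List ℕ) := [dw0, dw1, dw2, dw3, dw4, dw5, dw6, dw7, dw8, dw9, dw10, dw11, dw12, dw13]

/-- weight of square `k` of type `t` -/
def dw (t k : ℕ) : ℕ := (dwT.getD t []).getD k 0

/-- entry `k` (with offset) of the flag `f` of type `t` -/
def el (t f k : ℕ) : ℕ := Nat.mod (Nat.shiftRight (gR (1024 * t + f)) (56 * (172 - k))) 72057594037927936

/-- shifted kernel value of two records -/
def dd (q p : ℕ) : ℕ := dt (gR q) 0 (gR p) 4872

/-- offset of all values (`C0` of the data file; the name `C0` also denotes an action on codes) -/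
def cof : ℤ := 1218101226441168

/-- statement VAL: the records have the intended digits, so that the product gives the kernel -/
def S_val : Prop :=
  (∀ t < 14, ∀ f < 1024, ∀ g < 1024, (dd (1024 * t + f) (1024 * t + g) : ℤ) =
    cof + ∑ k ∈ range (dm t), (dw t k : ℤ) * ((el t f k : ℤ) - ofs t) * ((el t g k : ℤ) - ofs t)) ∧
  (dd 14336 14336 : ℤ) = cof ∧ (∀ q < 14337, gR q < 2 ^ 9744)

/-- index of the flag `f` over the code `c` -/
def qx (c f : ℕ) : ℕ := Nat.mod (Nat.shiftRight (ctb c) (Nat.mul 14 f)) 16384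

/-- the kernel at a code and two flags -/
def K0 (c f g : ℕ) : ℤ := (dd (qx c f) (qx c g) : ℤ) - cof

/-- statement IDX: all flags over a code have indices of the same type -/
def S_idx : Prop := ∀ c < 1024, (∀ f < 1024, qx c f = 14336) ∨
  ∃ t < 14, ∀ f < 1024, 1024 * t ≤ qx c f ∧ qx c f < 1024 * t + 1024

/-- statement PSD (from VAL and IDX) -/
def S_psd : Prop := (∀ c < 1024, ∀ f < 1024, ∀ g < 1024, K0 c g f = K0 c f g) ∧
  ∀ c < 1024, ∀ (ι : Type) [Fintype ι] (φ : ι → ℕ), (∀ i, φ i < 1024) → 0 ≤ ∑ i, ∑ j, K0 c (φ i) (φ j)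

/-- statement INV: invariance under the five transpositions of neighbouring points -/
def S_inv : Prop := ∀ c < 1024, ∀ f < 1024, ∀ g < 1024,
  K0 (A.C0 c) (F0 c f) (F0 c g) = K0 c f g ∧
  K0 (C1 c) (F1 c f) (F1 c g) = K0 c f g ∧
  K0 (C2 c) (F2 c f) (F2 c g) = K0 c f g ∧
  K0 (C3 c) (F3 c f) (F3 c g) = K0 c f g ∧
  K0 (C4 c) (F4 c f) (F4 c g) = K0 c f g

/-- the kernel on points -/
def kap {V : Type} (E : V → V → V → V → ℕ) (a b c d e f u v : V) : ℤ :=
  K0 (cd E a b c d e f) (fl E a b c d e f u) (fl E a b c d e f v)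

/-- statement LEAF: meaning of the check of one word -/
def S_leaf : Prop := ∀ (V : Type) (E : V → V → V → V → ℕ), Odd4 E → ∀ x : Fin 8 → V,
  leafK (B.wd E x) = true → L8f (kap E) x ≤ 194381400000 * (8 * (D8f E x : ℤ) - 175)

end

end Pool.Agent.Y440.K
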