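import Pool.Agent.Y440.K.Stm2
import Pool.Agent.Y440.K.Fast

/-! Statement on the second form of the check of one word. -/

set_option autoImplicit false

open Pool.Agent.Y440.A (Odd4 L8f D8f)

namespace Pool.Agent.Y440.K

/-- statement LEAF2: meaning of the check of one word -/
def S_leaf2 : Prop := ∀ (V : Type) (E : V → V → V → V → ℕ), Odd4 E → ∀ x : Fin 8 → V,
  leaf2 (B.wd E x) = true → L8f (kap E) x ≤ 194381400000 * (8 * (D8f E x : ℤ) - 175)

end Pool.Agent.Y440.K
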